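import Pool.Agent.helper53.ORE.Spec

set_option autoImplicit false

namespace Pool.Agent.ORE

open Module Pool.Agent.GS

open scoped BigOperators

noncomputable section

/-- The vectors orthogonal to `k` given vectors. -/
theorem C3_dim {F V : Type} [Field F] [AddCommGroup V] [Module F V] [FiniteDimensional F V]
    (Q : QuadraticForm F V) (k : ℕ) (x : Fin k → V) :
    ∃ D : Submodule F V, (∀ c, c ∈ D ↔ ∀ i, pb Q c (x i) = 0) ∧ finrank F V ≤ finrank F D + k := by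
  let L : V →ₗ[F] (Fin k → F) :=
    { toFun := fun c i => pb Q c (x i)
      map_add' := by
        intro a b
        funext i
        simp
      map_smul' := by
        intro a b
        funext i
        simp }
  refine ⟨LinearMap.ker L, ?_, ?_⟩
  · intro c
    rw [LinearMap.mem_ker]
    constructor
    · intro h i
      exact congrFun h i
    · intro h
      funext i
      exact h i
  · have h1 := LinearMap.finrank_range_add_finrank_ker L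
    have h2 : finrank F (LinearMap.range L) ≤ k := by
      have h3 := Submodule.finrank_le (LinearMap.range L)
      rw [Module.finrank_fin_fun] at h3
      exact h3
    omega

/-- The commutator relation. -/
theorem C3_rel {F V : Type} [Field F] [AddCommGroup V] [Module F V]
    (Q : QuadraticForm F V) (h2 : (2 : F) = 0) (r₁ r₂ a b : V) (hr₁ : Q r₁ = 0) (hr₂ : Q r₂ = 0)
    (h12 : pb Q r₁ r₂ = 0) (ha₁ : pb Q r₁ a = 0) (ha₂ : pb Q r₂ a = 0) (hb₁ : pb Q r₁ b = 0)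
    (hb₂ : pb Q r₂ b = 0) :
    sq Q r₁ a * sq Q r₂ b = sq Q r₁ (pb Q a b • r₂) * (sq Q r₂ b * sq Q r₁ a) := by
  have h12' : pb Q r₁ (pb Q a b • r₂) = 0 := by rw [map_smul, h12, smul_zero]
  have ha₁' : pb Q a r₁ = 0 := by rw [pb_symm, ha₁]
  have ha₂' : pb Q a r₂ = 0 := by rw [pb_symm, ha₂]
  have hb₁' : pb Q b r₁ = 0 := by rw [pb_symm, hb₁]
  have hb₂' : pb Q b r₂ = 0 := by rw [pb_symm, hb₂]
  have h21 : pb Q r₂ r₁ = 0 := by rw [pb_symm, h12]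
  have hba : pb Q b a = pb Q a b := pb_symm Q b a
  ext x
  rw [Equiv.Perm.mul_apply, Equiv.Perm.mul_apply, Equiv.Perm.mul_apply, sq_apply h2 hr₂ hb₂,
    sq_apply h2 hr₁ ha₁, sq_apply h2 hr₁ ha₁, sq_apply h2 hr₂ hb₂, sq_apply h2 hr₁ h12']
  simp only [map_add, LinearMap.add_apply, map_smul, LinearMap.smul_apply, smul_eq_mul, Q_smul,
    pb_self2 h2, h12, h21, ha₁, ha₂, hb₁, hb₂, ha₁', ha₂', hb₁', hb₂', hba, hr₂, mul_zero, add_zero]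
  match_scalars
  · ring
  · ring
  · linear_combination (-(pb Q x r₁) * pb Q a b) * h2
  · ring
  · ring

/-- The group theory. -/
theorem C3_grp {G : Type} [Group G] (A1 A2 B1 B2 Z12 Z21 : G) (hA1 : A1 * A1 = 1)
    (hA2 : A2 * A2 = 1) (hB1 : B1 * B1 = 1) (hB2 : B2 * B2 = 1) (hA : A1 * A2 = A2 * A1)
    (hB : B1 * B2 = B2 * B1) (h21 : A2 * B1 = Z21 * (B1 * A2)) (h12 : A1 * B2 = Z12 * (B2 * A1))
    (hZ : Z21 * Z21 = 1) (c1 : Z21 * A1 = A1 * Z21) (c2 : Z12 * B2 = B2 * Z12)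
    (c3 : Z12 * A1 = A1 * Z12) (c4 : Z12 * A2 = A2 * Z12) :
    (A1 * B1) * (A2 * B2) * (A1 * B1)⁻¹ * (A2 * B2)⁻¹ = Z21 * Z12 := by
  have iA1 : A1⁻¹ = A1 := inv_eq_of_mul_eq_one_left hA1
  have iA2 : A2⁻¹ = A2 := inv_eq_of_mul_eq_one_left hA2
  have iB1 : B1⁻¹ = B1 := inv_eq_of_mul_eq_one_left hB1
  have iB2 : B2⁻¹ = B2 := inv_eq_of_mul_eq_one_left hB2
  have e1 : B1 * A2 = Z21 * (A2 * B1) := by
    rw [h21, ← mul_assoc, hZ, one_mul]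
  have e2 : B1 * B2 * B1 = B2 := by rw [hB, mul_assoc, hB1, mul_one]
  have e3 : B2 * A1 * B2 = Z12 * A1 := by
    calc B2 * A1 * B2 = B2 * (A1 * B2) := by rw [mul_assoc]
      _ = B2 * (Z12 * (B2 * A1)) := by rw [h12]
      _ = (B2 * Z12) * (B2 * A1) := by rw [mul_assoc]
      _ = Z12 * (B2 * B2) * A1 := by rw [← c2]; simp only [mul_assoc]
      _ = Z12 * A1 := by rw [hB2, mul_one]
  rw [mul_inv_rev, mul_inv_rev, iA1, iA2, iB1, iB2]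
  calc A1 * B1 * (A2 * B2) * (B1 * A1) * (B2 * A2)
      = A1 * (B1 * A2) * B2 * B1 * A1 * B2 * A2 := by simp only [mul_assoc]
    _ = A1 * (Z21 * (A2 * B1)) * B2 * B1 * A1 * B2 * A2 := by rw [e1]
    _ = (A1 * Z21) * A2 * (B1 * B2 * B1) * A1 * B2 * A2 := by simp only [mul_assoc]
    _ = Z21 * A1 * A2 * (B2 * A1 * B2) * A2 := by rw [e2, ← c1]; simp only [mul_assoc]
    _ = Z21 * A1 * A2 * (Z12 * A1) * A2 := by rw [e3]
    _ = Z21 * A1 * (A2 * Z12) * (A1 * A2) := by simp only [mul_assoc]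
    _ = Z21 * A1 * (Z12 * A2) * (A2 * A1) := by rw [← c4, hA]
    _ = Z21 * (A1 * Z12) * (A2 * A2) * A1 := by simp only [mul_assoc]
    _ = Z21 * (Z12 * A1) * A1 := by rw [hA2, mul_one, c3]
    _ = Z21 * Z12 := by rw [mul_assoc, mul_assoc, hA1, mul_one]

theorem C3 (cw : CWQ_stmt) (sg : SGQ_stmt) (bl : BLW_stmt) : C3_stmt := by
  intro F V _ _ _ _ _ Q h2 hN hd y hy p₁ p₂ τ hp hτ hfix e₁ e₂
  -- the vectors `r₁`, `r₂`
  obtain ⟨D, hD, hDd⟩ := C3_dim Q 2 ![p₁, p₂]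
  obtain ⟨r₁, hr₁D, hr₁0, hr₁⟩ := (cw Q Q).1 D (by omega)
  have hr₁p := (hD r₁).1 hr₁D
  have r1p1 : pb Q r₁ p₁ = 0 := hr₁p 0
  have r1p2 : pb Q r₁ p₂ = 0 := hr₁p 1
  obtain ⟨f, hf⟩ : ∃ f, pb Q r₁ f ≠ 0 := by
    by_contra h
    push Not at h
    exact hr₁0 (hN r₁ h)
  obtain ⟨D', hD', hDd'⟩ := C3_dim Q 4 ![p₁, p₂, r₁, f]
  obtain ⟨r₂, hr₂D, hr₂0, hr₂⟩ := (cw Q Q).1 D' (by omega)
  have hr₂p := (hD' r₂).1 hr₂D
  have r2p1 : pb Q r₂ p₁ = 0 := hr₂p 0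
  have r2p2 : pb Q r₂ p₂ = 0 := hr₂p 1
  have r21 : pb Q r₂ r₁ = 0 := hr₂p 2
  have r2f : pb Q r₂ f = 0 := hr₂p 3
  have r12 : pb Q r₁ r₂ = 0 := by rw [pb_symm, r21]
  have yr₁ : y r₁ = r₁ := hfix r₁ r1p1 r1p2
  have yr₂ : y r₂ = r₂ := hfix r₂ r2p1 r2p2
  have o1 : ∀ v, pb Q r₁ (y v) = pb Q r₁ v := by
    intro v
    have := OQ_pb hy r₁ v
    rwa [yr₁] at this
  have o2 : ∀ v, pb Q r₂ (y v) = pb Q r₂ v := by
    intro v
    have := OQ_pb hy r₂ v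
    rwa [yr₂] at this
  have yadd := hy.1.1
  have ysmul := hy.1.2
  -- the elements
  set t : Equiv.Perm V := sq Q r₁ p₁ * sq Q r₂ p₂ with ht
  have htm : t ∈ OmQ Q :=
    (OmQ Q).mul_mem (sg Q h2 hN hd r₁ p₁ hr₁ r1p1) (sg Q h2 hN hd r₂ p₂ hr₂ r2p2)
  set q₁ : V := y p₁ + p₁ with hq₁
  set q₂ : V := y p₂ + p₂ with hq₂
  have r1q1 : pb Q r₁ q₁ = 0 := by rw [hq₁, map_add, o1, r1p1, add_zero]
  have r1q2 : pb Q r₁ q₂ = 0 := by rw [hq₂, map_add, o1, r1p2, add_zero]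
  have r2q1 : pb Q r₂ q₁ = 0 := by rw [hq₁, map_add, o2, r2p1, add_zero]
  have r2q2 : pb Q r₂ q₂ = 0 := by rw [hq₂, map_add, o2, r2p2, add_zero]
  set c : F := pb Q p₁ q₂ with hc
  have hr12c : ∀ s : F, pb Q r₁ (s • r₂) = 0 := by
    intro s
    rw [map_smul, r12, smul_zero]
  have hr22c : ∀ s : F, pb Q r₂ (s • r₂) = 0 := by
    intro s
    rw [map_smul, pb_self2 h2, smul_zero]
  set u₁ : V := q₁ + c • r₂ with hu₁
  set u₂ : V := y q₁ + c • r₂ with hu₂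
  have r1u1 : pb Q r₁ u₁ = 0 := by rw [hu₁, map_add, r1q1, hr12c, add_zero]
  have r2u1 : pb Q r₂ u₁ = 0 := by rw [hu₁, map_add, r2q1, hr22c, add_zero]
  have r1u2 : pb Q r₁ u₂ = 0 := by rw [hu₂, map_add, o1, r1q1, hr12c, add_zero]
  have r2u2 : pb Q r₂ u₂ = 0 := by rw [hu₂, map_add, o2, r2q1, hr22c, add_zero]
  have r1v2 : pb Q r₁ (y q₂) = 0 := by rw [o1, r1q2]
  have r2v2 : pb Q r₂ (y q₂) = 0 := by rw [o2, r2q2]
  have hyt : y * t * y⁻¹ = sq Q r₁ (y p₁) * sq Q r₂ (y p₂) := by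
    have h1 := sq_conj_mem h2 hy hr₁ r1p1
    have h3 := sq_conj_mem h2 hy hr₂ r2p2
    rw [yr₁] at h1
    rw [yr₂] at h3
    rw [← h1, ← h3, ht]
    group
  have hz₁ : y * t * y⁻¹ * t⁻¹ = sq Q r₁ u₁ * sq Q r₂ q₂ := by
    have k1 : pb Q r₂ (y p₂) = 0 := by rw [o2, r2p2]
    have k2 : pb Q r₁ (y p₁) = 0 := by rw [o1, r1p1]
    have h1 : sq Q r₂ (y p₂) * sq Q r₂ p₂ = sq Q r₂ q₂ := sq_add h2 hr₂ k1 r2p2
    have h3 : sq Q r₂ q₂ * sq Q r₁ p₁ = sq Q r₁ (c • r₂) * (sq Q r₁ p₁ * sq Q r₂ q₂) := by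
      rw [C3_rel Q h2 r₁ r₂ p₁ q₂ hr₁ hr₂ r12 r1p1 r2p1 r1q2 r2q2, ← mul_assoc, sq_sq, one_mul]
    have h4 : sq Q r₁ (y p₁) * sq Q r₁ (c • r₂) = sq Q r₁ (y p₁ + c • r₂) :=
      sq_add h2 hr₁ k2 (hr12c c)
    have h5 : sq Q r₁ (y p₁ + c • r₂) * sq Q r₁ p₁ = sq Q r₁ (y p₁ + c • r₂ + p₁) :=
      sq_add h2 hr₁ (by rw [map_add, k2, hr12c, add_zero]) r1p1
    have h6 : y p₁ + c • r₂ + p₁ = u₁ := by
      rw [hu₁, hq₁]
      abel
    rw [hyt, ht, mul_inv_rev, sq_inv, sq_inv]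
    calc sq Q r₁ (y p₁) * sq Q r₂ (y p₂) * (sq Q r₂ p₂ * sq Q r₁ p₁)
        = sq Q r₁ (y p₁) * ((sq Q r₂ (y p₂) * sq Q r₂ p₂) * sq Q r₁ p₁) := by
          simp only [mul_assoc]
      _ = sq Q r₁ (y p₁) * (sq Q r₁ (c • r₂) * (sq Q r₁ p₁ * sq Q r₂ q₂)) := by rw [h1, h3]
      _ = (sq Q r₁ (y p₁) * sq Q r₁ (c • r₂)) * sq Q r₁ p₁ * sq Q r₂ q₂ := by
          simp only [mul_assoc]
      _ = sq Q r₁ u₁ * sq Q r₂ q₂ := by rw [h4, h5, h6]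
  have hz₂ : y * (y * t * y⁻¹ * t⁻¹) * y⁻¹ = sq Q r₁ u₂ * sq Q r₂ (y q₂) := by
    have h1 := sq_conj_mem h2 hy hr₁ r1u1
    have h3 := sq_conj_mem h2 hy hr₂ r2q2
    rw [yr₁] at h1
    rw [yr₂] at h3
    have h4 : y u₁ = u₂ := by rw [hu₁, yadd, ysmul, yr₂, hu₂]
    rw [h4] at h1
    rw [hz₁, ← h1, ← h3]
    group
  -- the number `δ`
  have hinv : ∀ a b, pb Q (y a) b = pb Q a (y⁻¹ b) := by
    intro a b
    rw [← OQ_pb hy a (y⁻¹ b), pinv]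
  have hy' : y⁻¹ ∈ OQ Q := (OQ Q).inv_mem hy
  have hq : y q₂ + y⁻¹ q₂ = τ • q₂ := by
    rw [hq₂, yadd, hy'.1.1, invp, smul_add, ← ysmul, ← e₂, yadd, pinv]
    abel
  have hd1 : pb Q u₂ q₂ + pb Q u₁ (y q₂) = τ * pb Q q₁ q₂ := by
    have k1 : pb Q u₂ q₂ = pb Q q₁ (y⁻¹ q₂) := by
      rw [hu₂, map_add (pb Q), LinearMap.add_apply, map_smul (pb Q), LinearMap.smul_apply, r2q2,
        smul_zero, add_zero, hinv]
    have k2 : pb Q u₁ (y q₂) = pb Q q₁ (y q₂) := by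
      rw [hu₁, map_add (pb Q), LinearMap.add_apply, map_smul (pb Q), LinearMap.smul_apply, r2v2,
        smul_zero, add_zero]
    rw [k1, k2, ← map_add, add_comm (y⁻¹ q₂), hq, map_smul, smul_eq_mul]
  have hd2 : pb Q q₁ q₂ = τ * pb Q p₁ p₂ := by
    have k3 : pb Q (y p₁) (y p₂) = pb Q p₁ p₂ := OQ_pb hy p₁ p₂
    have k4 : pb Q (y p₁) p₂ + pb Q p₁ (y p₂) = τ * pb Q p₁ p₂ := by
      rw [hinv, ← map_add, add_comm (y⁻¹ p₂), e₂, map_smul, smul_eq_mul]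
    rw [hq₁, hq₂, map_add, map_add, LinearMap.add_apply, LinearMap.add_apply, k3]
    linear_combination k4 + pb Q p₁ p₂ * h2
  set δ : F := pb Q u₂ q₂ + pb Q u₁ (y q₂) with hδ
  have hδ0 : δ ≠ 0 := by
    rw [hd1, hd2]
    exact mul_ne_zero hτ (mul_ne_zero hτ hp)
  -- the commutator
  have hcomm : (sq Q r₁ u₁ * sq Q r₂ q₂) * (sq Q r₁ u₂ * sq Q r₂ (y q₂)) *
      (sq Q r₁ u₁ * sq Q r₂ q₂)⁻¹ * (sq Q r₁ u₂ * sq Q r₂ (y q₂))⁻¹ = sq Q r₁ (δ • r₂) := by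
    have hcA : ∀ a b, pb Q r₁ a = 0 → pb Q r₁ b = 0 →
        sq Q r₁ a * sq Q r₁ b = sq Q r₁ b * sq Q r₁ a := by
      intro a b ha hb
      rw [sq_add h2 hr₁ ha hb, sq_add h2 hr₁ hb ha, add_comm]
    have hcB : ∀ a b, pb Q r₂ a = 0 → pb Q r₂ b = 0 →
        sq Q r₂ a * sq Q r₂ b = sq Q r₂ b * sq Q r₂ a := by
      intro a b ha hb
      rw [sq_add h2 hr₂ ha hb, sq_add h2 hr₂ hb ha, add_comm]
    have hcZ : ∀ (s : F) (b : V), pb Q r₁ b = 0 → pb Q r₂ b = 0 →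
        sq Q r₁ (s • r₂) * sq Q r₂ b = sq Q r₂ b * sq Q r₁ (s • r₂) := by
      intro s b hb₁ hb₂
      have h1 := C3_rel Q h2 r₁ r₂ (s • r₂) b hr₁ hr₂ r12 (hr12c s) (hr22c s) hb₁ hb₂
      have h3 : pb Q (s • r₂) b = 0 := by
        rw [map_smul, LinearMap.smul_apply, hb₂, smul_zero]
      have h4 : sq Q r₁ (0 : V) = 1 := by
        ext x
        rw [sq_apply h2 hr₁ (map_zero _), map_zero, Q_zero]
        simp
      rw [h3, zero_smul, h4, one_mul] at h1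
      exact h1
    rw [C3_grp (sq Q r₁ u₁) (sq Q r₁ u₂) (sq Q r₂ q₂) (sq Q r₂ (y q₂))
      (sq Q r₁ (pb Q u₁ (y q₂) • r₂)) (sq Q r₁ (pb Q u₂ q₂ • r₂)) (sq_sq _ _) (sq_sq _ _)
      (sq_sq _ _) (sq_sq _ _) (hcA _ _ r1u1 r1u2) (hcB _ _ r2q2 r2v2)
      (C3_rel Q h2 r₁ r₂ u₂ q₂ hr₁ hr₂ r12 r1u2 r2u2 r1q2 r2q2)
      (C3_rel Q h2 r₁ r₂ u₁ (y q₂) hr₁ hr₂ r12 r1u1 r2u1 r1v2 r2v2)
      (sq_sq _ _) (hcA _ _ (hr12c _) r1u1) (hcZ _ _ r1v2 r2v2) (hcA _ _ (hr12c _) r1u1)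
      (hcA _ _ (hr12c _) r1u2), sq_add h2 hr₁ (hr12c _) (hr12c _), ← add_smul]
  have hG : Gq Q y 2 (sq Q r₁ (δ • r₂)) := by
    refine ⟨![1, t], ?_, 1, ?_⟩
    · intro i
      fin_cases i
      · exact (OmQ Q).one_mem
      · exact htm
    · rw [sc_one, one_mul, ← hcomm, ← hz₂, ← hz₁]
      have h0 : y ∈ Subgroup.closure (Set.range fun i : Fin 2 =>
          (![1, t] : Fin 2 → Equiv.Perm V) i * y * ((![1, t] : Fin 2 → Equiv.Perm V) i)⁻¹) :=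
        Subgroup.subset_closure ⟨0, by simp⟩
      have h1 : t * y * t⁻¹ ∈ Subgroup.closure (Set.range fun i : Fin 2 =>
          (![1, t] : Fin 2 → Equiv.Perm V) i * y * ((![1, t] : Fin 2 → Equiv.Perm V) i)⁻¹) :=
        Subgroup.subset_closure ⟨1, rfl⟩
      have h3 : y * t * y⁻¹ * t⁻¹ ∈ Subgroup.closure (Set.range fun i : Fin 2 =>
          (![1, t] : Fin 2 → Equiv.Perm V) i * y * ((![1, t] : Fin 2 → Equiv.Perm V) i)⁻¹) := by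
        have e : y * t * y⁻¹ * t⁻¹ = y * (t * y * t⁻¹)⁻¹ := by group
        rw [e]
        exact Subgroup.mul_mem _ h0 (Subgroup.inv_mem _ h1)
      have h4 := Subgroup.mul_mem _ (Subgroup.mul_mem _ h0 h3) (Subgroup.inv_mem _ h0)
      exact Subgroup.mul_mem _ (Subgroup.mul_mem _ (Subgroup.mul_mem _ h3 h4)
        (Subgroup.inv_mem _ h3)) (Subgroup.inv_mem _ h4)
  refine bl Q h2 hN hd y 2 r₁ (δ • r₂) ?_ hr₁ ?_ (hr12c δ) hG
  · rw [LinearIndependent.pair_iff]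
    intro s t' hst
    have h1 : pb Q (s • r₁ + t' • (δ • r₂)) f = 0 := by
      rw [hst, map_zero, LinearMap.zero_apply]
    simp only [map_add, LinearMap.add_apply, map_smul, LinearMap.smul_apply, smul_eq_mul, r2f,
      mul_zero, add_zero] at h1
    have hs : s = 0 := (mul_eq_zero.1 h1).resolve_right hf
    rw [hs, zero_smul, zero_add] at hst
    refine ⟨hs, ?_⟩
    rcases smul_eq_zero.1 hst with h | h
    · exact h
    · exfalso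
      rcases smul_eq_zero.1 h with h | h
      · exact hδ0 h
      · exact hr₂0 h
  · rw [Q_smul, hr₂, mul_zero]

end

end Pool.Agent.ORE
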